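import Pool.Agent.Q260.AH.Db

set_option autoImplicit false

/-!
# Job EL of project AH
-/

namespace Pool.Agent.Q285.AH

open MeasureTheory Filter Topology Set
open Pool.Agent.Y749.Rig (ZZ mm nT mm_nonneg mem_ZZ ZZ_mono zs_im_pos one_lt_log)
open Pool.Agent.Q260.GM (gd LL kk Dl L2psi SS kT Ns Ns_lim T_top r_lim ev_pos ev_L)
open Pool.Agent.Q260.AH

lemma Kt_nonneg {R L : ℝ} (hL : 0 ≤ L) (v : ℝ) : 0 ≤ Kt R L v := by unfold Kt; positivity

lemma Kt_zero (R L : ℝ) : Kt R L 0 = L * R ^ 2 := by unfold Kt; simp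

lemma mm_sq (s : ℂ) : mm s ≤ mm s * mm s := by
  unfold mm
  rcases Nat.eq_zero_or_pos (H370.mult riemannZeta s) with h5 | h5
  · rw [h5]; simp
  · have : (1 : ℝ) ≤ (H370.mult riemannZeta s : ℝ) := by exact_mod_cast h5
    nlinarith

lemma PB_ge {R L T1 T2 : ℝ} (hL : 0 ≤ L) (h : T1 ≤ T2) :
    L * R ^ 2 * (Ns T2 - Ns T1) ≤ PB (Kt R L) T1 T2 := by
  have hsub : ZZ T1 ⊆ ZZ T2 := ZZ_mono h
  have e1 : Ns T2 - Ns T1 = ∑ s ∈ ZB T1 T2, mm s := by
    unfold Ns ZB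
    rw [← Finset.sum_sdiff hsub]; ring
  rw [e1, Finset.mul_sum]
  unfold PB PK
  refine Finset.sum_le_sum fun s hs => ?_
  refine le_trans ?_ (Finset.single_le_sum (f := fun s' : ℂ => mm s * mm s' * Kt R L (s.im - s'.im))
    (fun s' _ => mul_nonneg (mul_nonneg (mm_nonneg _) (mm_nonneg _)) (Kt_nonneg hL _)) hs)
  show L * R ^ 2 * mm s ≤ mm s * mm s * Kt R L (s.im - s.im)
  rw [sub_self, Kt_zero]
  calc L * R ^ 2 * mm s ≤ L * R ^ 2 * (mm s * mm s) := mul_le_mul_of_nonneg_left (mm_sq s) (by positivity)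
    _ = _ := by ring

lemma Ns_zero : Ns 0 = 0 := by
  unfold Ns
  refine Finset.sum_eq_zero fun s hs => ?_
  rw [mem_ZZ] at hs
  have h3 := zs_im_pos hs
  have h4 := hs.2.2.2.2
  linarith

lemma Nk_lim {Y : ℝ} (hY : 0 ≤ Y) :
    Tendsto (fun κ : ℝ => κ / LL κ * Ns (Y / κ)) (𝓝[>] 0) (𝓝 (Y / (2 * Real.pi))) := by
  rcases hY.eq_or_lt with rfl | hY
  · simp [Ns_zero]
  · have h1 := (((Ns_lim.comp (T_top hY)).mul (r_lim hY))).const_mul Y
    have e : Y * (1 / (2 * Real.pi) * 1) = Y / (2 * Real.pi) := by ring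
    rw [e] at h1
    refine h1.congr' ?_
    filter_upwards [ev_pos, ev_L 1, (T_top hY).eventually_ge_atTop 10] with κ hκ hL hT
    have hLp : LL κ ≠ 0 := by linarith
    have hlT : 1 < Real.log (Y / κ) := one_lt_log (by linarith)
    have hlTp : Real.log (Y / κ) ≠ 0 := by linarith
    simp only [Function.comp]
    field_simp

/-- job EL of project AH -/
theorem t_EL : S_EL := by
  intro R p q δ hR hp hpq hδ
  have hpi := Real.pi_pos
  have hq : 0 ≤ q := hp.trans hpq.le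
  have h1 := (((Nk_lim hq).sub (Nk_lim hp)).const_mul (Real.pi / 2)).sub_const ((q - p) / 4)
  have h2 := h1.const_mul (R ^ 2)
  have e : R ^ 2 * (Real.pi / 2 * (q / (2 * Real.pi) - p / (2 * Real.pi)) - (q - p) / 4) = 0 := by
    field_simp
    ring
  rw [e] at h2
  filter_upwards [h2.eventually (le_mem_nhds (show -δ < 0 by linarith)), ev_pos, ev_L 1] with κ k0 hκ hL
  have hLp : 0 < LL κ := by linarith
  refine k0.trans ?_
  unfold EX
  have h3 := PB_ge (R := R) hLp.le (div_le_div_of_nonneg_right hpq.le hκ.le)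
  have h4 := mul_le_mul_of_nonneg_left h3 (show 0 ≤ κ / LL κ ^ 2 * (Real.pi / 2) by positivity)
  have e4 : κ / LL κ ^ 2 * (Real.pi / 2) * (LL κ * R ^ 2 * (Ns (q / κ) - Ns (p / κ))) =
      R ^ 2 * (Real.pi / 2 * (κ / LL κ * Ns (q / κ) - κ / LL κ * Ns (p / κ))) := by
    field_simp
  rw [e4] at h4
  linarith

end Pool.Agent.Q285.AH
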