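import Pool.Agent.Q260.AH.Db

set_option autoImplicit false

/-!
# Job GB of project AH
-/

namespace Pool.Agent.Q285.AH

open MeasureTheory Filter Topology Set
open Pool.Agent.Y749.Rig (ZZ mm nT)
open Pool.Agent.Q260.GM (gd LL gd_cont gd_nonneg ev_pos ev_L)
open Pool.Agent.Q260.AH

lemma gc_int {N : ℕ} {c : ℕ → ℝ} {κ p q : ℝ} (h : ∀ k ∈ Finset.range N, IntervalIntegrable (gd κ (k + 1)) volume p q) :
    ∫ y in p..q, gc N c κ y = ∑ k ∈ Finset.range N, c k * ∫ y in p..q, gd κ (k + 1) y := by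
  unfold gc
  rw [intervalIntegral.integral_finset_sum fun k hk => (h k hk).const_mul _]
  exact Finset.sum_congr rfl fun k _ => intervalIntegral.integral_const_mul _ _

/-- job GB of project AH -/
theorem t_GB (h1 : S_BL) (h2 : S_KD) : S_GB := by
  intro hRH R ε p q δ N c hR hε hε1 hA hp hpq hδ
  have hpi := Real.pi_pos
  set S : ℝ := ∑ k ∈ Finset.range N, |c k| with hS
  have hS0 : 0 ≤ S := Finset.sum_nonneg fun _ _ => abs_nonneg _
  obtain ⟨η, hη0, hη⟩ : ∃ η : ℝ, 0 < η ∧ (S + 1) * η ≤ δ :=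
    ⟨δ / (S + 1), by positivity, le_of_eq (by field_simp)⟩
  have hall : ∀ᶠ κ : ℝ in 𝓝[>] 0, ∀ k ∈ Finset.range N, |(∫ y in p..q, gd κ ((k : ℝ) + 1) y) -
      (κ / LL κ ^ 2 * (Real.pi / 2 * PB (Kc (((k : ℝ) + 1) / LL κ)) (p / κ) (q / κ)) - (q - p) / 4)| ≤ η := by
    rw [eventually_all_finset]
    intro k _
    exact h1 hRH ((k : ℝ) + 1) p q η (by positivity) hp hpq hη0
  filter_upwards [hall, h1 hRH 1 p q η one_pos hp hpq hη0, ev_pos, ev_L (max 1 (4 * ((N : ℝ) + 1)))]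
    with κ hk hk1 hκ hL
  have hL1 : 1 ≤ LL κ := (le_max_left _ _).trans hL
  have hL4 : 4 * ((N : ℝ) + 1) ≤ LL κ := (le_max_right _ _).trans hL
  have hLp : 0 < LL κ := by linarith
  have hNn : (0 : ℝ) ≤ N := Nat.cast_nonneg N
  have hgi : ∀ a : ℝ, 0 < a → a ≤ (N : ℝ) + 1 → IntervalIntegrable (gd κ a) volume p q := by
    intro a ha0 ha
    refine (gd_cont hRH (by positivity) ?_).intervalIntegrable _ _
    rw [div_le_iff₀ hLp]; linarith
  have hgk : ∀ k ∈ Finset.range N, IntervalIntegrable (gd κ ((k : ℝ) + 1)) volume p q := by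
    intro k hk
    have : (k : ℝ) ≤ N := by exact_mod_cast (Finset.mem_range.1 hk).le
    exact hgi _ (by positivity) (by linarith)
  rw [gc_int hgk]
  have e1 : ∫ y in p..q, (gd κ 1 y + 1) = (∫ y in p..q, gd κ 1 y) + (q - p) := by
    rw [intervalIntegral.integral_add (hgi 1 one_pos (by linarith)) intervalIntegrable_const,
      intervalIntegral.integral_const, smul_eq_mul, mul_one]
  rw [e1]
  set G : ℝ := ∫ y in p..q, gd κ 1 y with hG
  set P : ℝ → ℝ := fun x => PB (Kc x) (p / κ) (q / κ) with hP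
  -- the first sum
  have a1 : |(∑ k ∈ Finset.range N, c k * ∫ y in p..q, gd κ ((k : ℝ) + 1) y) -
      (κ / LL κ ^ 2 * (Real.pi / 2 * ∑ k ∈ Finset.range N, c k * P (((k : ℝ) + 1) / LL κ)) -
        (q - p) / 4 * ∑ k ∈ Finset.range N, c k)| ≤ S * η := by
    have e : (∑ k ∈ Finset.range N, c k * ∫ y in p..q, gd κ ((k : ℝ) + 1) y) -
      (κ / LL κ ^ 2 * (Real.pi / 2 * ∑ k ∈ Finset.range N, c k * P (((k : ℝ) + 1) / LL κ)) -
        (q - p) / 4 * ∑ k ∈ Finset.range N, c k) = ∑ k ∈ Finset.range N, c k *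
      ((∫ y in p..q, gd κ ((k : ℝ) + 1) y) -
      (κ / LL κ ^ 2 * (Real.pi / 2 * P (((k : ℝ) + 1) / LL κ)) - (q - p) / 4)) := by
      rw [Finset.mul_sum, Finset.mul_sum, Finset.mul_sum, ← Finset.sum_sub_distrib, ← Finset.sum_sub_distrib]
      exact Finset.sum_congr rfl fun k _ => by ring
    rw [e, hS, Finset.sum_mul]
    refine (Finset.abs_sum_le_sum_abs _ _).trans (Finset.sum_le_sum fun k hk' => ?_)
    rw [abs_mul]
    exact mul_le_mul_of_nonneg_left (hk k hk') (abs_nonneg _)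
  -- positive definiteness
  have a2 := h2 (ZB (p / κ) (q / κ)) mm Complex.im R ε (LL κ) N c hR hε hLp hA
  change |(∑ k ∈ Finset.range N, c k * P (((k : ℝ) + 1) / LL κ)) - PB (Kt R (LL κ)) (p / κ) (q / κ)| ≤
    ε * P (1 / LL κ) at a2
  -- the block with `a = 1`
  have a3 := (abs_le.1 hk1).1
  change -η ≤ G - (κ / LL κ ^ 2 * (Real.pi / 2 * P (1 / LL κ)) - (q - p) / 4) at a3
  -- the sum of the coefficients
  have a4 := hA 0 le_rfl
  simp only [mul_zero, neg_zero, Real.exp_zero, mul_one, sub_zero] at a4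
  rw [max_eq_right hR.le] at a4
  have hw : 0 ≤ κ / LL κ ^ 2 * (Real.pi / 2) := by positivity
  unfold EX
  set X : ℝ := ∑ k ∈ Finset.range N, c k * P (((k : ℝ) + 1) / LL κ) with hX
  set Q : ℝ := PB (Kt R (LL κ)) (p / κ) (q / κ) with hQ
  set Z : ℝ := ∑ k ∈ Finset.range N, c k * ∫ y in p..q, gd κ ((k : ℝ) + 1) y with hZ
  set W : ℝ := ∑ k ∈ Finset.range N, c k with hW
  set w : ℝ := κ / LL κ ^ 2 * (Real.pi / 2) with hwd
  have b2 : |w * X - w * Q| ≤ ε * (w * P (1 / LL κ)) := by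
    rw [← mul_sub, abs_mul, abs_of_nonneg hw]
    calc w * |X - Q| ≤ w * (ε * P (1 / LL κ)) := mul_le_mul_of_nonneg_left a2 hw
      _ = _ := by ring
  have b3 : w * P (1 / LL κ) ≤ G + (q - p) / 4 + η := by
    rw [hwd]
    linarith
  have b4 : |(q - p) / 4 * W - (q - p) / 4 * R| ≤ (q - p) / 4 * ε := by
    rw [← mul_sub, abs_mul, abs_of_nonneg (by linarith : 0 ≤ (q - p) / 4)]
    exact mul_le_mul_of_nonneg_left a4 (by linarith)
  have b5 := mul_le_mul_of_nonneg_left b3 hε.le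
  have b6 : ε * η ≤ η := by nlinarith
  have b7 : 0 ≤ ε * (q - p) := mul_nonneg hε.le (by linarith)
  have e5 : κ / LL κ ^ 2 * (Real.pi / 2 * X) = w * X := by rw [hwd]; ring
  have e6 : κ / LL κ ^ 2 * (Real.pi / 2 * Q) = w * Q := by rw [hwd]; ring
  rw [e5] at a1
  rw [e6]
  have hη' : S * η + η ≤ δ := by linarith
  rw [abs_le] at a1 b2 b4 ⊢
  constructor
  · nlinarith [a1.1, a1.2, b2.1, b2.2, b4.1, b4.2]
  · nlinarith [a1.1, a1.2, b2.1, b2.2, b4.1, b4.2]

end Pool.Agent.Q285.AH
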