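import Pool.Agent.Q260.AH.Db

set_option autoImplicit false

/-!
# Job UPP of project AH
-/

namespace Pool.Agent.Q285.AH

open MeasureTheory Filter Topology Set
open Pool.Agent.Y749.Rig (ZZ mm nT)
open Pool.Agent.Q260.GM (gd LL kk L2psi gd_cont gd_nonneg ev_pos ev_L ev_gen kk_cont kk_nonneg kk_le kk_one_int
  gd_integrable inv_top)
open Pool.Agent.Q260.AH

/-- job UPP of project AH -/
theorem t_UPP (h1 : S_WA) (h2 : S_RS) (h3 : S_GB) (h4 : S_WP) : S_UPP := by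
  classical
  intro hRH hL2 R η hR hη hEX
  have hpi := Real.pi_pos
  obtain ⟨C, hC, hWP⟩ := h4 hRH hL2
  obtain ⟨C1, hC1, hgen1⟩ := ev_gen hRH (a1 := 1) (a2 := 1) one_pos le_rfl
  set M1 : ℝ := 10 * C1 + Real.pi with hM1
  have hM10 : 0 < M1 := by positivity
  obtain ⟨ε, hε0, hε1, hε2⟩ : ∃ ε : ℝ, 0 < ε ∧ ε ≤ 1 ∧ ε * (M1 + C) ≤ η / 2 := by
    refine ⟨min 1 (η / (2 * (M1 + C))), by positivity, min_le_left _ _, ?_⟩
    calc min 1 (η / (2 * (M1 + C))) * (M1 + C) ≤ η / (2 * (M1 + C)) * (M1 + C) :=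
          mul_le_mul_of_nonneg_right (min_le_right _ _) (by positivity)
      _ = η / 2 := by field_simp
  set δ : ℝ := η / 8 with hδ
  have hδ0 : 0 < δ := by positivity
  obtain ⟨N, c, hAp⟩ := h1 R ε hR hε0
  have hNn : (0 : ℝ) ≤ N := Nat.cast_nonneg N
  set S : ℝ := ∑ k ∈ Finset.range N, |c k| with hS
  have hS0 : 0 ≤ S := Finset.sum_nonneg fun _ _ => abs_nonneg _
  obtain ⟨C2, hC2, hgen2⟩ := ev_gen hRH (a1 := 1) (a2 := (N : ℝ) + 1) one_pos (by linarith)
  set r : ℝ := (R ^ 2 - R) / 4 with hr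
  -- the length of the window
  have hR1 : Tendsto (fun A : ℝ => r * ∫ y in (0 : ℝ)..A, kk 1 y) atTop (𝓝 (r * Real.pi)) := by
    have := (intervalIntegral_tendsto_integral_Ioi 0 kk_one_int.1 tendsto_id).const_mul r
    rwa [kk_one_int.2] at this
  have hR2 : Tendsto (fun A : ℝ => 5 * S * C2 * (1 / (1 + A))) atTop (𝓝 (5 * S * C2 * 0)) := by
    refine Tendsto.const_mul _ ?_
    have : Tendsto (fun A : ℝ => 1 + A) atTop atTop := tendsto_atTop_add_const_left _ _ tendsto_id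
    exact this.const_div_atTop 1
  rw [mul_zero] at hR2
  obtain ⟨A, ⟨hA1, hA2⟩, hA0⟩ := (((hR1.eventually (ge_mem_nhds (show r * Real.pi < r * Real.pi + δ by linarith))).and
    (hR2.eventually (ge_mem_nhds (show (0 : ℝ) < δ / 2 by positivity)))).and (eventually_gt_atTop (0 : ℝ))).exists
  -- the good parameters
  set Gd : ℝ → Prop := fun κ => ∀ a ∈ Icc (1 : ℝ) ((N : ℝ) + 1), Continuous (gd κ a) with hGd
  have hk1 : ∀ k ∈ Finset.range N, ((k : ℝ) + 1) ∈ Icc (1 : ℝ) ((N : ℝ) + 1) := by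
    intro k hk
    have h5 : (k : ℝ) ≤ N := by exact_mod_cast (Finset.mem_range.1 hk).le
    have h6 : (0 : ℝ) ≤ k := Nat.cast_nonneg k
    constructor <;> linarith
  have h11 : (1 : ℝ) ∈ Icc (1 : ℝ) ((N : ℝ) + 1) := ⟨le_rfl, by linarith⟩
  have hgc : ∀ κ, Gd κ → Continuous (gc N c κ) := by
    intro κ h
    unfold gc
    exact continuous_finset_sum _ fun k hk => continuous_const.mul (h _ (hk1 k hk))
  have hmc : ∀ κ, Gd κ → Continuous (fun y => ∑ k ∈ Finset.range N, |c k| * gd κ ((k : ℝ) + 1) y) := by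
    intro κ h
    exact continuous_finset_sum _ fun k hk => continuous_const.mul (h _ (hk1 k hk))
  have hhc : ∀ κ, Gd κ → Continuous (fun y => gd κ 1 y + 1) := fun κ h => (h 1 h11).add continuous_const
  have hgm' : ∀ κ y, |gc N c κ y| ≤ ∑ k ∈ Finset.range N, |c k| * gd κ ((k : ℝ) + 1) y := by
    intro κ y
    unfold gc
    refine (Finset.abs_sum_le_sum_abs _ _).trans (Finset.sum_le_sum fun k _ => ?_)
    rw [abs_mul, abs_of_nonneg (gd_nonneg _ _ _)]
  set g : ℝ → ℝ → ℝ := fun κ y => if Gd κ then -gc N c κ y else 0 with hg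
  set m : ℝ → ℝ → ℝ := fun κ y => if Gd κ then ∑ k ∈ Finset.range N, |c k| * gd κ ((k : ℝ) + 1) y else 0 with hm
  set hh : ℝ → ℝ → ℝ := fun κ y => if Gd κ then gd κ 1 y + 1 else 0 with hhh
  have eg : ∀ κ, Gd κ → g κ = fun y => -gc N c κ y := by
    intro κ h; funext y; rw [hg]; simp only; rw [if_pos h]
  have em : ∀ κ, Gd κ → m κ = fun y => ∑ k ∈ Finset.range N, |c k| * gd κ ((k : ℝ) + 1) y := by
    intro κ h; funext y; rw [hm]; simp only; rw [if_pos h]
  have eh : ∀ κ, Gd κ → hh κ = fun y => gd κ 1 y + 1 := by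
    intro κ h; funext y; rw [hhh]; simp only; rw [if_pos h]
  have eg0 : ∀ κ, ¬ Gd κ → g κ = fun _ => (0 : ℝ) := by
    intro κ h; funext y; rw [hg]; simp only; rw [if_neg h]
  have em0 : ∀ κ, ¬ Gd κ → m κ = fun _ => (0 : ℝ) := by
    intro κ h; funext y; rw [hm]; simp only; rw [if_neg h]
  have eh0 : ∀ κ, ¬ Gd κ → hh κ = fun _ => (0 : ℝ) := by
    intro κ h; funext y; rw [hhh]; simp only; rw [if_neg h]
  have hgI : ∀ κ a b, IntervalIntegrable (g κ) volume a b := by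
    intro κ a b
    by_cases h : Gd κ
    · rw [eg κ h]; exact (hgc κ h).neg.intervalIntegrable _ _
    · rw [eg0 κ h]; exact intervalIntegrable_const
  have hmI : ∀ κ a b, IntervalIntegrable (m κ) volume a b := by
    intro κ a b
    by_cases h : Gd κ
    · rw [em κ h]; exact (hmc κ h).intervalIntegrable _ _
    · rw [em0 κ h]; exact intervalIntegrable_const
  have hhI : ∀ κ a b, IntervalIntegrable (hh κ) volume a b := by
    intro κ a b
    by_cases h : Gd κ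
    · rw [eh κ h]; exact (hhc κ h).intervalIntegrable _ _
    · rw [eh0 κ h]; exact intervalIntegrable_const
  have hgm : ∀ κ y, |g κ y| ≤ m κ y := by
    intro κ y
    by_cases h : Gd κ
    · rw [eg κ h, em κ h]
      simp only [abs_neg]
      exact hgm' κ y
    · rw [eg0 κ h, em0 κ h]; simp
  have hh0 : ∀ κ y, 0 ≤ hh κ y := by
    intro κ y
    by_cases h : Gd κ
    · rw [eh κ h]
      have := gd_nonneg κ 1 y
      simp only
      linarith
    · rw [eh0 κ h]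
  have hGe : ∀ᶠ κ : ℝ in 𝓝[>] 0, Gd κ := by
    filter_upwards [hgen2] with κ hκ a ha
    exact (hκ.2.2.2 a ha).1
  have hAκ : ∀ᶠ κ : ℝ in 𝓝[>] 0, A ≤ 1 / κ ^ 2 := by
    filter_upwards [inv_top.eventually_ge_atTop (max 1 A)] with κ hκ
    have h5 : 1 ≤ 1 / κ := (le_max_left _ _).trans hκ
    have h6 : A ≤ 1 / κ := (le_max_right _ _).trans hκ
    have e : 1 / κ ^ 2 = 1 / κ * (1 / κ) := by
      rcases eq_or_ne κ 0 with h0 | h0
      · rw [h0]; simp
      · field_simp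
    rw [e]
    nlinarith
  have hsq : ∀ᶠ κ : ℝ in 𝓝[>] 0, 5 * S * C2 * Real.sqrt κ ≤ δ / 2 := by
    have h5 : Tendsto (fun κ : ℝ => 5 * S * C2 * Real.sqrt κ) (𝓝[>] 0) (𝓝 (5 * S * C2 * Real.sqrt 0)) :=
      ((Real.continuous_sqrt.tendsto 0).mono_left nhdsWithin_le_nhds).const_mul _
    rw [Real.sqrt_zero, mul_zero] at h5
    exact h5.eventually (ge_mem_nhds (by positivity))
  set M : ℝ := S * (C2 * (1 + A)) + (C2 * (1 + A) + A) with hM
  have hM0 : 0 ≤ M := by positivity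
  have hmM : ∀ᶠ κ in 𝓝[>] (0 : ℝ), ∫ y in (0 : ℝ)..A, m κ y ≤ M := by
    filter_upwards [hGe, hAκ, hgen2] with κ k1 k2 k3
    rw [em κ k1, intervalIntegral.integral_finset_sum fun k hk =>
      ((k1 _ (hk1 k hk)).intervalIntegrable _ _).const_mul _]
    have h5 : ∀ k ∈ Finset.range N, (∫ y in (0 : ℝ)..A, |c k| * gd κ ((k : ℝ) + 1) y) ≤ |c k| * (C2 * (1 + A)) := by
      intro k hk
      rw [intervalIntegral.integral_const_mul]
      exact mul_le_mul_of_nonneg_left ((k3.2.2.2 _ (hk1 k hk)).2.2.2 A hA0.le k2) (abs_nonneg _)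
    refine (Finset.sum_le_sum h5).trans ?_
    rw [← Finset.sum_mul, hM]
    have : 0 ≤ C2 * (1 + A) + A := by positivity
    linarith
  have hhM : ∀ᶠ κ in 𝓝[>] (0 : ℝ), ∫ y in (0 : ℝ)..A, hh κ y ≤ M := by
    filter_upwards [hGe, hAκ, hgen2] with κ k1 k2 k3
    rw [eh κ k1, intervalIntegral.integral_add ((k1 1 h11).intervalIntegrable _ _) intervalIntegrable_const,
      intervalIntegral.integral_const, smul_eq_mul, mul_one, sub_zero]
    have h5 := (k3.2.2.2 _ h11).2.2.2 A hA0.le k2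
    have h6 : 0 ≤ S * (C2 * (1 + A)) := by positivity
    rw [hM]
    linarith
  have hyp : ∀ p q : ℝ, 0 ≤ p → p < q → q ≤ A → ∀ δ' : ℝ, 0 < δ' →
      ∀ᶠ κ in 𝓝[>] (0 : ℝ), -r * (q - p) - ε * (∫ y in p..q, hh κ y) - δ' ≤ ∫ y in p..q, g κ y := by
    intro p q hp hpq _ δ' hδ'
    filter_upwards [hGe, h3 hRH R ε p q (δ' / 2) N c hR hε0 hε1 hAp hp hpq (by positivity),
      hEX p q (δ' / 2) hp hpq (by positivity)] with κ k1 k2 k3
    rw [eh κ k1, eg κ k1, intervalIntegral.integral_neg]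
    have := (abs_le.1 k2).2
    rw [← hr] at this
    linarith
  have main := h2 (l := 𝓝[>] (0 : ℝ)) g m hh (kk 1) A (-r) ε M hA0 hε0.le hM0 hgI hmI hhI hgm hh0 hmM hhM
    (kk_cont 1) hyp 0 A le_rfl hA0 le_rfl (fun y _ => kk_nonneg 1 y) δ hδ0
  filter_upwards [main, hGe, hgen1, hgen2, hsq, hAκ, hWP R ε δ N c hR hε0 hδ0 hAp] with κ k1 k2 k3 k4 k5 k6 k7
  obtain ⟨hκ, hκ1, hL1, hg1⟩ := k3
  obtain ⟨-, -, -, hg2⟩ := k4
  have hLp : 0 < LL κ := by linarith
  have hQ : 0 < κ * LL κ ^ 2 := by positivity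
  have hkc := kk_cont 1
  have hki := kk_one_int.1
  have hkb : ∀ y, |kk 1 y| ≤ (1 ^ 2 + 4) * (1 / (1 + y ^ 2)) := fun y => by
    rw [abs_of_nonneg (kk_nonneg 1 y)]; exact kk_le 1 y
  have hsq1 : Real.sqrt κ ≤ 1 := by
    rw [Real.sqrt_le_left (by norm_num)]; linarith
  -- the first density
  obtain ⟨c1, c2, c3, c4⟩ := hg1 1 ⟨le_rfl, le_rfl⟩
  have i1 : Integrable (fun y => kk 1 y * gd κ 1 y) := gd_integrable hkc c1 hkb c2
  have hH : ∫ y in (0 : ℝ)..A, kk 1 y * (gd κ 1 y + 1) ≤ M1 := by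
    have i2 : IntegrableOn (fun y => kk 1 y * (gd κ 1 y + 1)) (Ioi 0) := by
      have : (fun y => kk 1 y * (gd κ 1 y + 1)) = fun y => kk 1 y * gd κ 1 y + kk 1 y := by
        funext y; ring
      rw [this]
      exact i1.integrableOn.add hki
    have h5 : ∫ y in (0 : ℝ)..A, kk 1 y * (gd κ 1 y + 1) ≤ ∫ y in Ioi (0 : ℝ), kk 1 y * (gd κ 1 y + 1) := by
      rw [intervalIntegral.integral_of_le hA0.le]
      exact setIntegral_mono_set i2
        (ae_of_all _ fun y => mul_nonneg (kk_nonneg 1 y) (by have := gd_nonneg κ 1 y; linarith))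
        Ioc_subset_Ioi_self.eventuallyLE
    refine h5.trans ?_
    have h6 : ∫ y in Ioi (0 : ℝ), kk 1 y * (gd κ 1 y + 1) = (∫ y in Ioi (0 : ℝ), kk 1 y * gd κ 1 y) + Real.pi := by
      rw [← kk_one_int.2, ← integral_add i1.integrableOn hki]
      congr 1
      funext y; ring
    rw [h6]
    have h7 : ∫ y in Ioi (0 : ℝ), kk 1 y * gd κ 1 y ≤ ∫ y in Ioi (0 : ℝ), 5 * (gd κ 1 y / (1 + y ^ 2)) := by
      refine setIntegral_mono i1.integrableOn (c2.const_mul 5).integrableOn fun y => ?_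
      simp only
      have h8 := kk_le 1 y
      calc kk 1 y * gd κ 1 y ≤ (1 ^ 2 + 4) * (1 / (1 + y ^ 2)) * gd κ 1 y :=
            mul_le_mul_of_nonneg_right h8 (gd_nonneg κ 1 y)
        _ = 5 * (gd κ 1 y / (1 + y ^ 2)) := by ring
    rw [integral_const_mul] at h7
    have h8 := c3 0 le_rfl (by positivity)
    have h9 : C1 * (1 / (1 + 0) + Real.sqrt κ) ≤ C1 * 2 := by
      apply mul_le_mul_of_nonneg_left _ hC1.le
      norm_num
      linarith
    rw [hM1]
    linarith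
  -- the combination
  have ik : ∀ k ∈ Finset.range N, Integrable (fun y => kk 1 y * gd κ ((k : ℝ) + 1) y) := fun k hk =>
    gd_integrable hkc (k2 _ (hk1 k hk)) hkb (hg2 _ (hk1 k hk)).2.1
  have im : Integrable (fun y => ∑ k ∈ Finset.range N, |c k| * (gd κ ((k : ℝ) + 1) y / (1 + y ^ 2))) :=
    integrable_finset_sum _ fun k hk => ((hg2 _ (hk1 k hk)).2.1).const_mul _
  have ig : Integrable (fun y => kk 1 y * gc N c κ y) := by
    have e : (fun y => kk 1 y * gc N c κ y) = fun y => ∑ k ∈ Finset.range N, c k * (kk 1 y * gd κ ((k : ℝ) + 1) y) := by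
      funext y
      unfold gc
      rw [Finset.mul_sum]
      exact Finset.sum_congr rfl fun k _ => by ring
    rw [e]
    exact integrable_finset_sum _ fun k hk => (ik k hk).const_mul _
  have esp : ∫ y in Ioi (0 : ℝ), kk 1 y * gc N c κ y =
      (∫ y in (0 : ℝ)..A, kk 1 y * gc N c κ y) + ∫ y in Ioi A, kk 1 y * gc N c κ y := by
    rw [intervalIntegral.integral_of_le hA0.le, ← setIntegral_union (Ioc_disjoint_Ioi le_rfl) measurableSet_Ioi
      ig.integrableOn ig.integrableOn, Ioc_union_Ioi_eq_Ioi hA0.le]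
  have htail : ∫ y in Ioi A, kk 1 y * gc N c κ y ≤ δ := by
    have h5 : ∫ y in Ioi A, kk 1 y * gc N c κ y ≤
        ∫ y in Ioi A, 5 * ∑ k ∈ Finset.range N, |c k| * (gd κ ((k : ℝ) + 1) y / (1 + y ^ 2)) := by
      refine setIntegral_mono ig.integrableOn (im.const_mul 5).integrableOn fun y => ?_
      simp only
      have h8 := kk_le 1 y
      have h9 := hgm' κ y
      calc kk 1 y * gc N c κ y ≤ kk 1 y * |gc N c κ y| := mul_le_mul_of_nonneg_left (le_abs_self _) (kk_nonneg 1 y)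
        _ ≤ (1 ^ 2 + 4) * (1 / (1 + y ^ 2)) * ∑ k ∈ Finset.range N, |c k| * gd κ ((k : ℝ) + 1) y :=
            mul_le_mul h8 h9 (abs_nonneg _) (by positivity)
        _ = _ := by
            rw [Finset.mul_sum, Finset.mul_sum]
            exact Finset.sum_congr rfl fun k _ => by ring
    refine h5.trans ?_
    rw [integral_const_mul, integral_finset_sum _ fun k hk => (((hg2 _ (hk1 k hk)).2.1).const_mul _).integrableOn]
    have h6 : ∀ k ∈ Finset.range N, (∫ y in Ioi A, |c k| * (gd κ ((k : ℝ) + 1) y / (1 + y ^ 2))) ≤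
        |c k| * (C2 * (1 / (1 + A) + Real.sqrt κ)) := by
      intro k hk
      rw [integral_const_mul]
      exact mul_le_mul_of_nonneg_left ((hg2 _ (hk1 k hk)).2.2.1 A hA0.le k6) (abs_nonneg _)
    have h7 := Finset.sum_le_sum h6
    rw [← Finset.sum_mul] at h7
    have h8 : 5 * (S * (C2 * (1 / (1 + A) + Real.sqrt κ))) = 5 * S * C2 * (1 / (1 + A)) + 5 * S * C2 * Real.sqrt κ := by
      ring
    linarith
  -- the window
  rw [eh κ k2, eg κ k2] at k1
  have e7 : ∫ y in (0 : ℝ)..A, kk 1 y * (fun y => -gc N c κ y) y = -∫ y in (0 : ℝ)..A, kk 1 y * gc N c κ y := by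
    rw [← intervalIntegral.integral_neg]
    congr 1
    funext y
    simp only [mul_neg]
  have e8 : ∫ y in (0 : ℝ)..A, kk 1 y * (fun y => gd κ 1 y + 1) y = ∫ y in (0 : ℝ)..A, kk 1 y * (gd κ 1 y + 1) := rfl
  rw [e7, e8] at k1
  have k8 := mul_le_mul_of_nonneg_left hH hε0.le
  have k9 : ∫ y in Ioi (0 : ℝ), kk 1 y * gc N c κ y ≤ r * Real.pi + 3 * δ + ε * M1 := by
    rw [esp]
    have : -r * (∫ y in (0 : ℝ)..A, kk 1 y) = -(r * ∫ y in (0 : ℝ)..A, kk 1 y) := by ring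
    rw [this] at k1
    linarith
  have k10 := (abs_le.1 k7).2
  have k11 : 2 / Real.pi * (κ * LL κ ^ 2 * ∫ y in Ioi (0 : ℝ), kk 1 y * gc N c κ y) ≤
      κ * LL κ ^ 2 * ((R ^ 2 - R) / 2 + (3 * δ + ε * M1)) := by
    have e9 : 2 / Real.pi * (κ * LL κ ^ 2 * ∫ y in Ioi (0 : ℝ), kk 1 y * gc N c κ y) =
      κ * LL κ ^ 2 * (2 / Real.pi * ∫ y in Ioi (0 : ℝ), kk 1 y * gc N c κ y) := by ring
    rw [e9]
    apply mul_le_mul_of_nonneg_left _ hQ.le
    have h5 := mul_le_mul_of_nonneg_left k9 (show 0 ≤ 2 / Real.pi by positivity)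
    refine h5.trans ?_
    have e10 : 2 / Real.pi * (r * Real.pi + 3 * δ + ε * M1) = (R ^ 2 - R) / 2 + 2 / Real.pi * (3 * δ + ε * M1) := by
      rw [hr]; field_simp; ring
    rw [e10]
    have h6 : 2 / Real.pi ≤ 1 := by
      rw [div_le_one hpi]; linarith [Real.pi_gt_three]
    have h7 : 0 ≤ 3 * δ + ε * M1 := by positivity
    nlinarith
  have k12 : κ * LL κ ^ 2 * ((R ^ 2 - R) / 2 + (3 * δ + ε * M1)) + (C * ε + δ) * (κ * LL κ ^ 2) ≤
      κ * LL κ ^ 2 * ((R ^ 2 - R) / 2 + η) := by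
    have e11 : κ * LL κ ^ 2 * ((R ^ 2 - R) / 2 + (3 * δ + ε * M1)) + (C * ε + δ) * (κ * LL κ ^ 2) =
      κ * LL κ ^ 2 * ((R ^ 2 - R) / 2 + (4 * δ + ε * (M1 + C))) := by ring
    rw [e11]
    apply mul_le_mul_of_nonneg_left _ hQ.le
    rw [hδ]
    linarith
  linarith

end Pool.Agent.Q285.AH
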